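import Pool.Agent.helper7.ZB.SpecT

/-! Row zb:ZE1 (MP_baa4d7_al). -/

set_option autoImplicit false

namespace Pool.Agent.ZB

open Pool.Agent.helper58.DC Pool.Agent.DI Pool.Agent.GR Pool.Agent.OB Pool.Agent.DR Pool.Agent.FI Pool.Agent.FI3 Pool.Agent.FI4 Pool.Agent.FI4I Pool.Agent.LE Pool.Agent.L5 Pool.Agent.NAB

lemma ZE1_mono {G : Type} [Group G] (p : ℕ) {j j' : ℕ} (h : j ≤ j') (Z : Subgroup G) :
    Om p j' Z ⊆ Om p j Z := by
  rintro y ⟨h1, z, hz, rfl⟩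
  refine ⟨h1, z ^ p ^ (j' - j), Z.pow_mem hz _, ?_⟩
  rw [← pow_mul, ← pow_add, Nat.sub_add_cancel h]

/-- the index -/
lemma ZE1_pow {G : Type} [Group G] [Finite G] {p a : ℕ} (hp : p.Prime) {Q Z : Subgroup G}
    (hQ : IsPGroup p Q) (hZQ : Z ≤ Q) (hc : ∀ z ∈ Z, ∀ x ∈ Q, z * x = x * z)
    (hcard : Nat.card Q ≤ p ^ a * Nat.card Z) : ∀ x ∈ Q, x ^ p ^ a ∈ Z := by
  intro x hx
  have : Fact p.Prime := ⟨hp⟩
  obtain ⟨b, hb⟩ := hQ.index (Z.subgroupOf Q)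
  have hn : (Z.subgroupOf Q).Normal := by
    refine ⟨fun n hn g => ?_⟩
    rw [Subgroup.mem_subgroupOf] at hn ⊢
    have h1 : ((g * n * g⁻¹ : Q) : G) = (n : G) := by
      rw [Subgroup.coe_mul, Subgroup.coe_mul, ← hc n hn g g.2, Subgroup.coe_inv, mul_inv_cancel_right]
    rw [h1]
    exact hn
  have h1 : Nat.card (Z.subgroupOf Q) = Nat.card Z :=
    Nat.card_congr (Subgroup.subgroupOfEquivOfLe hZQ).toEquiv
  have h2 := (Z.subgroupOf Q).card_mul_index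
  have hpos : 0 < Nat.card Z := Nat.card_pos
  have h3 : p ^ b ≤ p ^ a := by
    rw [h1, hb] at h2
    rw [← h2, mul_comm] at hcard
    exact Nat.le_of_mul_le_mul_right hcard hpos
  have h4 : b ≤ a := (Nat.pow_le_pow_iff_right hp.one_lt).1 h3
  have h5 := Subgroup.pow_index_mem (Z.subgroupOf Q) (⟨x, hx⟩ : Q)
  rw [hb, Subgroup.mem_subgroupOf] at h5
  have h6 : x ^ p ^ b ∈ Z := h5
  have h7 : x ^ p ^ a = (x ^ p ^ b) ^ p ^ (a - b) := by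
    rw [← pow_mul, ← pow_add, Nat.add_sub_cancel' h4]
  rw [h7]
  exact Z.pow_mem h6 _

theorem ZE1 : ZE1_stmt := by
  intro p hp κ G _ _ Q hK
  obtain ⟨has, hk, hQ, Z, hZQ, hc, hcard, -, h1, h2⟩ := hK
  have hfin : ∀ S : Set G, S.Finite := fun S => Set.toFinite S
  have s1 := ZE1_mono p (Nat.le_add_right κ.s κ.w) Z
  have s2 := ZE1_mono p (Nat.sub_le κ.s κ.a) Z
  have e1 : Om p (κ.s + κ.w) Z = Om p (κ.s - κ.a) Z :=
    Set.eq_of_subset_of_ncard_le (s1.trans s2) (by rw [h1, h2]) (hfin _)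
  have e2 : Om p κ.s Z = Om p (κ.s - κ.a) Z :=
    Set.Subset.antisymm s2 (e1 ▸ s1)
  have e3 : Om p κ.s Z = Om p (κ.s + κ.w) Z := e2.trans e1.symm
  have hpw := ZE1_pow hp hQ hZQ hc hcard
  have e4 : Om p κ.s Q = Om p κ.s Z := by
    refine Set.Subset.antisymm ?_ ?_
    · rintro y ⟨hy1, x, hx, hy2⟩
      rw [e2]
      refine ⟨hy1, x ^ p ^ κ.a, hpw x hx, ?_⟩
      rw [← pow_mul, ← pow_add, Nat.add_sub_cancel' has, hy2]
    · rintro y ⟨hy1, x, hx, hy2⟩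
      exact ⟨hy1, x, hZQ hx, hy2⟩
  -- the group with the carrier `Om`
  let E0 : Subgroup G :=
    { carrier := Om p κ.s Z
      one_mem' := ⟨one_pow _, 1, Z.one_mem, one_pow _⟩
      mul_mem' := by
        rintro x y ⟨hx1, z, hz, rfl⟩ ⟨hy1, z', hz', rfl⟩
        have hcz : Commute z z' := hc z hz z' (hZQ hz')
        have hcz2 : Commute (z ^ p ^ κ.s) (z' ^ p ^ κ.s) := hcz.pow_pow _ _
        refine ⟨?_, z * z', Z.mul_mem hz hz', hcz.mul_pow _⟩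
        rw [hcz2.mul_pow, hx1, hy1, one_mul]
      inv_mem' := by
        rintro x ⟨hx1, z, hz, rfl⟩
        refine ⟨?_, z⁻¹, Z.inv_mem hz, inv_pow _ _⟩
        rw [inv_pow, hx1, inv_one] }
  have hE0 : ∀ y, y ∈ E0 ↔ y ∈ Om p κ.s Z := fun y => Iff.rfl
  have hE : EQ p κ.s Q = E0 := by
    unfold EQ
    rw [e4]
    exact Subgroup.closure_eq E0
  have hE' : ∀ y, y ∈ EQ p κ.s Q ↔ y ∈ Om p κ.s Z := by
    intro y
    rw [hE]
    exact hE0 y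
  have hmem : ∀ y, y ∈ EQ p κ.s Q ↔ y ^ p = 1 ∧ ∃ x ∈ Q, x ^ p ^ κ.s = y := by
    intro y
    rw [hE', ← e4]
    exact Iff.rfl
  have hEZ : EQ p κ.s Q ≤ Z := by
    intro y hy
    obtain ⟨-, z, hz, rfl⟩ := (hE' y).1 hy
    exact Z.pow_mem hz _
  have hEQ : EQ p κ.s Q ≤ Q := hEZ.trans hZQ
  have hcd : Nat.card (EQ p κ.s Q) = p ^ κ.k := by
    have h3 : Nat.card (EQ p κ.s Q) = ((EQ p κ.s Q : Subgroup G) : Set G).ncard :=
      Nat.card_coe_set_eq _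
    have h4 : ((EQ p κ.s Q : Subgroup G) : Set G) = Om p κ.s Z := Set.ext fun y => hE' y
    rw [h3, h4, e3, h2]
  refine ⟨hmem, ⟨hcd, hEQ, ?_, hQ.to_le hEQ, fun b hb c hc' => hc b (hEZ hb) c (hEQ hc')⟩, ?_, ?_, ?_, ?_, ?_⟩
  · intro h
    rw [h, Subgroup.card_bot] at hcd
    have h3 := Nat.one_lt_pow (by omega : κ.k ≠ 0) hp.one_lt
    omega
  · intro y hy
    rw [hE', e3] at hy
    obtain ⟨-, z, hz, hzy⟩ := hy
    exact ⟨z, hZQ hz, hc z hz, hzy⟩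
  · intro x hx
    rw [Subgroup.mem_centralizer_iff]
    intro e he
    exact hc e (hEZ he) x hx
  · exact Subgroup.centralizer_le hEQ
  · exact Subgroup.centralizer_le_normalizer _
  · have key : ∀ g ∈ nz Q, ∀ y, y ∈ EQ p κ.s Q → g * y * g⁻¹ ∈ EQ p κ.s Q := by
      intro g hg y hy
      obtain ⟨hy1, x, hx, hxy⟩ := (hmem y).1 hy
      refine (hmem _).2 ⟨?_, g * x * g⁻¹, (Subgroup.mem_normalizer_iff.1 hg x).1 hx, ?_⟩
      · rw [conj_pow, hy1, mul_one, mul_inv_cancel]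
      · rw [conj_pow, hxy]
    intro g hg
    refine Subgroup.mem_normalizer_iff.2 fun y => ⟨key g hg y, fun hy => ?_⟩
    have h3 := key g⁻¹ (Subgroup.inv_mem _ hg) _ hy
    have h4 : g⁻¹ * (g * y * g⁻¹) * g⁻¹⁻¹ = y := by group
    rwa [h4] at h3

end Pool.Agent.ZB
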