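import Pool.Agent.helper7.ZB.SpecT

/-!
# Row zb:ZQK (MP_baa4d7_al): unit classes of the quotient (port of helper26/NA/NQK)
-/

set_option autoImplicit false

namespace Pool.Agent.ZB

open Pool.Agent.helper58.DC Pool.Agent.DI Pool.Agent.GR Pool.Agent.OB Pool.Agent.DR Pool.Agent.FI Pool.Agent.FI3 Pool.Agent.FI4 Pool.Agent.FI4I Pool.Agent.LE Pool.Agent.L5 Pool.Agent.NAB

theorem ZQK_comm {G Gb : Type} [Group G] [Group Gb] (π : G →* Gb) (D : Subgroup G) (D' : Subgroup Gb) (g : Gb) (n : ℕ)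
    (h : ∀ d ∈ D', ∃ c ∈ D, g * d * g⁻¹ = π c) (hD : ∀ d ∈ ⁅D, D⁆, d ^ n = 1) :
    ∀ d ∈ ⁅D', D'⁆, d ^ n = 1 := by
  intro d hd
  have h1 : D' ≤ D.map ((MulAut.conj g⁻¹).toMonoidHom.comp π) := by
    intro y hy
    obtain ⟨c, hc, hcy⟩ := h y hy
    refine ⟨c, hc, ?_⟩
    simp only [MonoidHom.comp_apply, MulEquiv.coe_toMonoidHom, MulAut.conj_apply, inv_inv]
    rw [← hcy]
    group
  have h2 := Subgroup.commutator_mono h1 h1 hd
  rw [← Subgroup.map_commutator] at h2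
  obtain ⟨c, hc, rfl⟩ := h2
  rw [← map_pow, hD c hc, map_one]

theorem ZQK (hZDD : ZDD_stmt) (hDEX : Pool.Agent.FI.DEX_stmt) (hKMG : KMG_stmt) (hCLS : CLS_stmt)
    (hTPR : Pool.Agent.FI.TPR_stmt) (hSBI : SBI_stmt) : ZQK_stmt := by
  intro p e a M hs he G Gb _ _ _ _ R₁ π hQ χ hχ z x hU hz χ' hχ' hI
  have : Fact p.Prime := ⟨hs.pr⟩
  obtain ⟨m', hm1, hm⟩ := hKMG G Gb π hQ.sur (z * x)
  have hmg : π (z * x) = π z * π x := map_mul π z x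
  -- the central characters
  have hT := hTPR p M hs G
  have hTb := hTPR p M hs Gb
  have hLG := hCLS G (⊤ : Subgroup G) (z * x)
  have hLGb := hCLS Gb (⊤ : Subgroup Gb) (π z * π x)
  have hχ'b : χ' ∈ IrrOn (⊤ : Subgroup Gb) := by rw [hTb.1]; exact hχ'
  have hχb : χ ∈ IrrOn (⊤ : Subgroup G) := by rw [hT.1]; exact hχ
  have hne1 : ¬ InM M (cc (fun g => χ' (π g)) (cls (⊤ : Subgroup G) (z * x))) := by
    intro h
    exact hU.ne (((hSBI p M hs G ⊤ _ χ ((hT.2.1 _ χ).1 hI)).2 (z * x) (Subgroup.mem_top _)).1 h)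
  have hom : cc (fun g => χ' (π g)) (cls (⊤ : Subgroup G) (z * x)) =
      (m' : ℂ) * cc χ' (cls (⊤ : Subgroup Gb) (π z * π x)) := by
    rw [← hLG.2.2.2.2.2.2.2.1, ← hLGb.2.2.2.2.2.2.2.1, ← hmg]
    exact hm χ'
  have hne : ¬ InM M (cc χ' (cls (⊤ : Subgroup Gb) (π z * π x))) := by
    intro h
    apply hne1
    rw [hom]
    exact InM.mul_left hs (IntAt.natCast hs m') h
  have hz1 : (π z) ^ p ^ (e - 1) ≠ 1 := by
    rw [← map_pow]
    exact fun h => hz ((hQ.ker _).1 h)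
  obtain ⟨k, hk⟩ := hU.pe
  refine ⟨⟨k, by rw [← map_pow, hk, map_one]⟩, fun h => hU.re (h.trans (orderOf_map_dvd π x)), by rw [← map_mul, hU.co, map_mul],
    Subgroup.mem_top _, Subgroup.mem_top _, ?_, hne, ?_⟩
  · obtain ⟨n, rfl⟩ : ∃ n, e = n + 1 := ⟨e - 1, by omega⟩
    refine orderOf_eq_prime_pow ?_ ?_
    · simpa using hz1
    · rw [← map_pow, ← hU.od, pow_orderOf_eq_one, map_one]
  · intro D' y hD'
    obtain ⟨D, x₀, hD, -⟩ := hDEX p M hs G ⊤ χ hχb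
    obtain ⟨g, hg⟩ := hZDD p M hs G Gb R₁ π hQ χ hχ D x₀ hD χ' hχ' hI D' y hD'
    exact ZQK_comm π D D' g (p ^ a) hg (hU.cx D x₀ hD)

end Pool.Agent.ZB
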